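import Mathlib
import Pool.Graph.R_pool_sql_team_seeded_3997aac3.Q137.Shifts.Shift

/-!
# Products of a set and the images of another set under a family of maps
-/

set_option autoImplicit false

namespace Pool.Agent.Helper96.Shf

open Finset Pool.Agent.Y359.PE Q137.Shifts
open scoped Classical Pointwise

/-- the number of divisors is submultiplicative -/
lemma card_divisors_mul_le (a b : ℕ) :
    (a * b).divisors.card ≤ a.divisors.card * b.divisors.card := by
  rw [Nat.divisors_mul]
  exact card_mul_le

/-- the modulus which takes care of the small primes -/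
def smo (m : ℕ) : ℕ := (m.factorial) ^ m

lemma smo_ne (m : ℕ) : smo m ≠ 0 := pow_ne_zero _ (Nat.factorial_ne_zero m)

lemma smo_fact {m p : ℕ} (hp : p.Prime) (h : p ≤ m) : m ≤ (smo m).factorization p := by
  unfold smo
  rw [Nat.factorization_pow, Finsupp.smul_apply, smul_eq_mul]
  have : 1 ≤ (m.factorial).factorization p := by
    refine (hp.dvd_iff_one_le_factorization (Nat.factorial_ne_zero m)).1 ?_
    exact (hp.dvd_factorial).2 h
  nlinarith

lemma level {M m p : ℕ} (hM : M ≠ 0) (hp : p.Prime) :
    m * p ^ M.factorization p ≤ p ^ ((M * smo m).factorization p + 1) := by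
  rw [Nat.factorization_mul hM (smo_ne m), Finsupp.add_apply, pow_succ, pow_add]
  have hpp : 0 < p ^ M.factorization p := pow_pos hp.pos _
  rcases le_or_gt p m with h | h
  · have h1 := smo_fact hp h
    have h2 : m ≤ p ^ (smo m).factorization p := by
      refine (Nat.lt_pow_self hp.one_lt).le.trans (Nat.pow_le_pow_right hp.pos h1)
    calc m * p ^ M.factorization p ≤ p ^ (smo m).factorization p * p ^ M.factorization p :=
          Nat.mul_le_mul_right _ h2
      _ ≤ p ^ M.factorization p * p ^ (smo m).factorization p * p := by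
          rw [mul_comm]
          exact Nat.le_mul_of_pos_right _ hp.pos
  · calc m * p ^ M.factorization p ≤ p * p ^ M.factorization p := Nat.mul_le_mul_right _ h.le
      _ ≤ p ^ M.factorization p * p ^ (smo m).factorization p * p := by
          have : 1 ≤ p ^ (smo m).factorization p := Nat.one_le_pow _ _ hp.pos
          nlinarith [Nat.mul_le_mul_left (p * p ^ M.factorization p) this]

/-- the image of `X` without zero -/
noncomputable def im (X : Finset ℤ) (f : ℤ → ℤ) : Finset ℤ := (X.image f).erase 0

lemma card_im (X : Finset ℤ) (f : ℤ → ℤ) (hf : Set.InjOn f X) : X.card ≤ (im X f).card + 1 := by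
  unfold im
  have h1 : (X.image f).card = X.card := card_image_of_injOn hf
  have h2 : (X.image f).card - 1 ≤ ((X.image f).erase 0).card := pred_card_le_card_erase
  omega

lemma sum_high' {κ : Type} (T S : Finset κ) (hS : S ⊆ T) (X : Finset ℤ) (φ : κ → ℤ → ℤ)
    {p e : ℕ} (hp : p.Prime) {δ : ℝ}
    (hT : ∀ x ∈ X, ((T.filter fun t => (p : ℤ) ^ (e + 1) ∣ φ t x).card : ℝ) ≤ δ * T.card) :
    ∑ t ∈ S, (((im X (φ t)).filter fun y => e < fa y p).card : ℝ) ≤ δ * T.card * X.card := by
  have h1 : ∀ t ∈ S, (((im X (φ t)).filter fun y => e < fa y p).card : ℝ) ≤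
      ∑ x ∈ X, if (p : ℤ) ^ (e + 1) ∣ φ t x then 1 else 0 := by
    intro t _
    rw [← sum_filter, sum_const, nsmul_eq_mul, mul_one]
    have : ((im X (φ t)).filter fun y => e < fa y p) ⊆
        (X.filter fun x => (p : ℤ) ^ (e + 1) ∣ φ t x).image (φ t) := by
      intro y hy
      unfold im at hy
      rw [mem_filter, mem_erase, mem_image] at hy
      obtain ⟨⟨_, x, hx, rfl⟩, h2⟩ := hy
      exact mem_image_of_mem _ (mem_filter.2 ⟨hx, pow_dvd_of_lt hp h2⟩)
    exact_mod_cast (card_le_card this).trans card_image_le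
  refine (sum_le_sum h1).trans ?_
  rw [sum_comm]
  have h2 : ∀ x ∈ X, ∑ t ∈ S, (if (p : ℤ) ^ (e + 1) ∣ φ t x then (1 : ℝ) else 0) ≤
      δ * T.card := by
    intro x hx
    rw [← sum_filter, sum_const, nsmul_eq_mul, mul_one]
    refine le_trans ?_ (hT x hx)
    exact_mod_cast card_le_card (filter_subset_filter _ hS)
  calc ∑ x ∈ X, ∑ t ∈ S, (if (p : ℤ) ^ (e + 1) ∣ φ t x then (1 : ℝ) else 0)
      ≤ ∑ x ∈ X, δ * T.card := sum_le_sum h2
    _ = δ * T.card * X.card := by rw [sum_const, nsmul_eq_mul]; ring

/-- **The images of a set under a family of maps.** -/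
theorem fam (ε : ℝ) (hε : 0 < ε) (hε1 : ε ≤ 1) : ∃ δ : ℝ, 0 < δ ∧ ∀ m : ℕ, ∃ c : ℝ, 0 < c ∧
    ∀ {κ : Type} (T : Finset κ) (M : ℕ), M ≠ 0 → ∀ (X : Finset ℤ), X.Nonempty →
      ∀ φ : κ → ℤ → ℤ, (∀ t ∈ T, Set.InjOn (φ t) X) →
      (∀ x ∈ X, ∀ p : ℕ, p.Prime → ∀ j : ℕ, m * p ^ M.factorization p ≤ p ^ j →
        ((T.filter fun t => (p : ℤ) ^ j ∣ φ t x).card : ℝ) ≤ δ * T.card) →
      ∀ B : Finset ℤ, (∃ b ∈ B, b ≠ 0) →
      ((T.filter fun t => (M.divisors.card : ℝ) ^ 2 * ((X.image (φ t) * B).card : ℝ) <
        c * ((X.card : ℝ) * B.card) ^ (1 - ε)).card : ℝ) ≤ ε * T.card := by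
  -- the parameters
  set ℓ := 18 / ε with hℓ
  have hℓ9 : 9 ≤ ℓ := by
    rw [hℓ, le_div_iff₀ hε]; nlinarith
  obtain ⟨p1, p2, p3⟩ := params' hℓ9
  set θ := 1 / Real.exp (ℓ / 2) with hθ
  set τ := 1 / Real.exp ℓ with hτ
  have hτ0 : 0 < τ := by positivity
  have hτ1 : τ ≤ 1 := by
    rw [hτ, div_le_one (Real.exp_pos _)]
    exact Real.one_le_exp (by linarith)
  have hκ : 9 / ℓ = ε / 2 := by rw [hℓ]; field_simp; norm_num
  rw [hκ] at p3
  set δ := τ * ε ^ 2 / 8 with hδ
  have hδ0 : 0 < δ := by positivity
  have key : ∀ m : ℕ, ∃ c : ℝ, 0 < c ∧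
    ∀ {κ : Type} (T : Finset κ) (M : ℕ), M ≠ 0 → ∀ (X : Finset ℤ), X.Nonempty →
      ∀ φ : κ → ℤ → ℤ, (∀ t ∈ T, Set.InjOn (φ t) X) →
      (∀ x ∈ X, ∀ p : ℕ, p.Prime → ∀ j : ℕ, m * p ^ M.factorization p ≤ p ^ j →
        ((T.filter fun t => (p : ℤ) ^ j ∣ φ t x).card : ℝ) ≤ δ * T.card) →
      ∀ B : Finset ℤ, (∃ b ∈ B, b ≠ 0) →
      ((T.filter fun t => (M.divisors.card : ℝ) ^ 2 * ((X.image (φ t) * B).card : ℝ) <
        c * ((X.card : ℝ) * B.card) ^ (1 - ε)).card : ℝ) ≤ ε * T.card := by
    intro m
    have hsd : (1 : ℝ) ≤ (smo m).divisors.card := by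
      have : 0 < (smo m).divisors.card := card_pos.2 ⟨1, Nat.one_mem_divisors.2 (smo_ne m)⟩
      exact_mod_cast this
    refine ⟨1 / (16 * ((smo m).divisors.card : ℝ) ^ 2), by positivity, ?_⟩
    intro κ T M hM X hX φ hinj hconc B hB
    obtain ⟨b0, hb0, hb00⟩ := hB
    set A' := B.erase 0 with hA'd
    have hA' : A'.Nonempty := ⟨b0, mem_erase.2 ⟨hb00, hb0⟩⟩
    have h0 : (0 : ℤ) ∉ A' := notMem_erase _ _
    have hAc : (B.card : ℝ) ≤ 2 * A'.card := by
      have h1 : B.card - 1 ≤ A'.card := pred_card_le_card_erase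
      have h2 := card_pos.2 hA'
      have h3 : B.card ≤ 2 * A'.card := by omega
      exact_mod_cast h3
    have hXc1 : 1 ≤ X.card := card_pos.2 hX
    have hXpos : (0 : ℝ) < X.card := by exact_mod_cast hXc1
    set Q := M * smo m with hQd
    have hQ : Q ≠ 0 := mul_ne_zero hM (smo_ne m)
    set T' := T.filter fun t => X.card ≤ 2 * (im X (φ t)).card with hT'
    have hT'B : ∀ t ∈ T', (im X (φ t)).Nonempty := by
      intro t ht
      rw [hT', mem_filter] at ht
      rw [← card_pos]
      omega
    set N := 2 * δ * T.card / τ with hN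
    have hN0 : 0 ≤ N := by positivity
    have hTc : (0 : ℝ) ≤ T.card := Nat.cast_nonneg _
    obtain ⟨R, hR0, hR1, hR2⟩ := family Q hQ A' hA' h0 T' (fun t => im X (φ t)) hT'B
      (fun t _ => notMem_erase _ _) hτ0.le p1 p2 (by linarith) hN0 (by
        intro p hp
        set S := T'.filter fun t =>
          ¬ ((((im X (φ t)).filter fun b => Q.factorization p < fa b p).card : ℝ) ≤
            τ * (im X (φ t)).card) ∧
          ¬ (((A'.filter fun a => Q.factorization p < fa a p).card : ℝ) ≤ τ * A'.card) with hS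
        have h1 := sum_high' T S ((filter_subset _ _).trans (filter_subset _ _)) X φ hp
          (e := Q.factorization p) (δ := δ)
          (fun x hx => hconc x hx p hp _ (level hM hp))
        have h2 : (S.card : ℝ) * (τ * X.card / 2) ≤ δ * T.card * X.card := by
          calc (S.card : ℝ) * (τ * X.card / 2) = ∑ t ∈ S, τ * X.card / 2 := by
                rw [sum_const, nsmul_eq_mul]
            _ ≤ ∑ t ∈ S, (((im X (φ t)).filter fun b => Q.factorization p < fa b p).card : ℝ) := by
                refine sum_le_sum fun t ht => ?_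
                rw [hS, mem_filter] at ht
                have h3 := ht.2.1
                push Not at h3
                have h4 := ht.1
                rw [hT', mem_filter] at h4
                have h5 : (X.card : ℝ) ≤ 2 * (im X (φ t)).card := by exact_mod_cast h4.2
                have h6 : τ * X.card ≤ τ * (2 * (im X (φ t)).card) :=
                  mul_le_mul_of_nonneg_left h5 hτ0.le
                linarith
            _ ≤ _ := h1
        have h3 : (S.card : ℝ) * (τ / 2) ≤ δ * T.card := by
          have : (S.card : ℝ) * (τ / 2) * X.card ≤ δ * T.card * X.card := by linarith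
          exact le_of_mul_le_mul_right this hXpos
        rw [hN, le_div_iff₀ hτ0]
        linarith)
    set lA := Real.log A'.card with hlA
    have hA'1 : (1 : ℝ) ≤ A'.card := by exact_mod_cast card_pos.2 hA'
    have hlA0 : 0 ≤ lA := Real.log_nonneg hA'1
    have hD : (1 : ℝ) ≤ Q.divisors.card := by
      have : 0 < Q.divisors.card := card_pos.2 ⟨1, Nat.one_mem_divisors.2 hQ⟩
      exact_mod_cast this
    -- the good indices
    have good : ∀ t ∈ T', R t ≤ ε / 2 * lA → ((X.card : ℝ) * B.card) ^ (1 - ε) ≤
        16 * (Q.divisors.card : ℝ) ^ 2 * ((X.image (φ t) * B).card : ℝ) := by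
      intro t ht hRt
      have h1 := hR1 t ht
      have ht' := ht
      rw [hT', mem_filter] at ht'
      have hBt : (X.card : ℝ) ≤ 2 * (im X (φ t)).card := by exact_mod_cast ht'.2
      have hBt1 : (1 : ℝ) ≤ (im X (φ t)).card := by exact_mod_cast card_pos.2 (hT'B t ht)
      set lB := Real.log (im X (φ t)).card with hlB
      have hlB0 : 0 ≤ lB := Real.log_nonneg hBt1
      have hy : 0 ≤ 2 * Real.log (2 * (Q.divisors.card : ℝ)) := by
        have := Real.log_nonneg (show (1 : ℝ) ≤ 2 * Q.divisors.card by linarith)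
        linarith
      set y := 2 * Real.log (2 * (Q.divisors.card : ℝ)) with hyd
      set κ' := 4 / Real.log (1 / θ) + τ / θ with hκd
      have hκ0 : 0 ≤ κ' := by
        have : 0 ≤ Real.log (1 / θ) := Real.log_nonneg (by rw [le_div_iff₀ p1]; linarith)
        positivity
      have h2 : (1 - 4 / Real.log (1 / θ) - τ / θ) = 1 - κ' := by rw [hκd]; ring
      rw [h2] at h1
      have h3 : (1 - ε) * (lA + lB) - y ≤ Real.log (A' * im X (φ t)).card := by
        have e1 : (1 - κ') * (lA + lB - y) - R t ≤ Real.log (A' * im X (φ t)).card := h1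
        have e2 : κ' * (lA + lB) ≤ ε / 2 * (lA + lB) :=
          mul_le_mul_of_nonneg_right p3 (by linarith)
        have e3 : 0 ≤ κ' * y := mul_nonneg hκ0 hy
        have e4 : 0 ≤ ε / 2 * lB := by positivity
        have e5 : (1 - κ') * (lA + lB - y) = (lA + lB) - κ' * (lA + lB) - y + κ' * y := by ring
        have e6 : (1 - ε) * (lA + lB) = (lA + lB) - ε / 2 * (lA + lB) - ε / 2 * lA - ε / 2 * lB := by
          ring
        rw [e5] at e1
        rw [e6]
        linarith
      have hsub : A' * im X (φ t) ⊆ X.image (φ t) * B := by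
        rw [mul_comm]
        exact mul_subset_mul (erase_subset _ _) (erase_subset _ _)
      have hpos : (0 : ℝ) < (A' * im X (φ t)).card := by
        exact_mod_cast card_pos.2 (hA'.mul (hT'B t ht))
      have hle : ((A' * im X (φ t)).card : ℝ) ≤ (X.image (φ t) * B).card := by
        exact_mod_cast card_le_card hsub
      have h4 := Real.log_le_log hpos hle
      have hBpos : (0 : ℝ) < B.card := by
        exact_mod_cast card_pos.2 ⟨b0, hb0⟩
      have h5 : Real.log B.card ≤ Real.log 2 + lA := by
        rw [hlA, ← Real.log_mul (by norm_num) (by linarith)]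
        exact Real.log_le_log hBpos hAc
      have h6 : Real.log X.card ≤ Real.log 2 + lB := by
        rw [hlB, ← Real.log_mul (by norm_num) (by linarith)]
        exact Real.log_le_log hXpos hBt
      have hpos2 : (0 : ℝ) < (X.image (φ t) * B).card := lt_of_lt_of_le hpos hle
      rw [← Real.log_le_log_iff (Real.rpow_pos_of_pos (by positivity) _) (by positivity),
        Real.log_rpow (by positivity), Real.log_mul hXpos.ne' hBpos.ne',
        Real.log_mul (by positivity) hpos2.ne', Real.log_mul (by norm_num) (by positivity),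
        Real.log_pow]
      have h16 : Real.log 16 = 4 * Real.log 2 := by
        rw [show (16 : ℝ) = 2 ^ 4 by norm_num, Real.log_pow]
        norm_num
      have hy2 : y = 2 * Real.log 2 + 2 * Real.log Q.divisors.card := by
        rw [hyd, Real.log_mul (by norm_num) (by linarith)]
        ring
      have hl2 : 0 ≤ Real.log 2 := Real.log_nonneg (by norm_num)
      have h7 : (1 - ε) * (Real.log X.card + Real.log B.card) ≤
          (1 - ε) * (2 * Real.log 2 + (lA + lB)) :=
        mul_le_mul_of_nonneg_left (by linarith) (by linarith)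
      rw [h16]
      push_cast
      have h8 : (1 - ε) * (2 * Real.log 2) ≤ 2 * Real.log 2 :=
        mul_le_of_le_one_left (by linarith) (by linarith)
      have h9 : (1 - ε) * (2 * Real.log 2 + (lA + lB)) =
          (1 - ε) * (2 * Real.log 2) + (1 - ε) * (lA + lB) := by ring
      rw [h9] at h7
      linarith
    -- from `Q` to `M`
    have good' : ∀ t ∈ T', R t ≤ ε / 2 * lA →
        1 / (16 * ((smo m).divisors.card : ℝ) ^ 2) * ((X.card : ℝ) * B.card) ^ (1 - ε) ≤
          (M.divisors.card : ℝ) ^ 2 * ((X.image (φ t) * B).card : ℝ) := by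
      intro t ht hRt
      have h1 := good t ht hRt
      have h2 : (Q.divisors.card : ℝ) ≤ M.divisors.card * (smo m).divisors.card := by
        exact_mod_cast card_divisors_mul_le M (smo m)
      have h3 : (Q.divisors.card : ℝ) ^ 2 ≤
          (M.divisors.card : ℝ) ^ 2 * ((smo m).divisors.card : ℝ) ^ 2 := by
        rw [← mul_pow]
        exact pow_le_pow_left₀ (Nat.cast_nonneg _) h2 2
      have h4 : ((X.card : ℝ) * B.card) ^ (1 - ε) ≤
          16 * ((M.divisors.card : ℝ) ^ 2 * ((smo m).divisors.card : ℝ) ^ 2) *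
            ((X.image (φ t) * B).card : ℝ) := by
        refine h1.trans (mul_le_mul_of_nonneg_right ?_ (Nat.cast_nonneg _))
        linarith
      rw [one_div, inv_mul_le_iff₀ (by positivity)]
      linarith
    -- the exceptional indices
    have hsplit : (T.filter fun t => (M.divisors.card : ℝ) ^ 2 *
        ((X.image (φ t) * B).card : ℝ) <
          1 / (16 * ((smo m).divisors.card : ℝ) ^ 2) * ((X.card : ℝ) * B.card) ^ (1 - ε)) ⊆
        (T.filter fun t => ¬ X.card ≤ 2 * (im X (φ t)).card) ∪
          T'.filter fun t => ε / 2 * lA < R t := by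
      intro t ht
      rw [mem_filter] at ht
      rw [mem_union, mem_filter, mem_filter]
      by_cases h1 : X.card ≤ 2 * (im X (φ t)).card
      · right
        have h2 : t ∈ T' := mem_filter.2 ⟨ht.1, h1⟩
        refine ⟨h2, ?_⟩
        by_contra h3
        push Not at h3
        have := good' t h2 h3
        linarith [ht.2]
      · left
        exact ⟨ht.1, h1⟩
    have hone : ((T.filter fun t => ¬ X.card ≤ 2 * (im X (φ t)).card).card : ℝ) ≤ δ * T.card := by
      -- here `X` has one element, and it is mapped to zero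
      obtain ⟨x, hx⟩ := hX
      obtain ⟨j, hj⟩ : ∃ j : ℕ, m * 2 ^ M.factorization 2 ≤ 2 ^ j :=
        ⟨m * 2 ^ M.factorization 2, Nat.lt_two_pow_self.le⟩
      refine le_trans ?_ (hconc x hx 2 Nat.prime_two j hj)
      refine Nat.cast_le.2 (card_le_card fun t ht => ?_)
      rw [mem_filter] at ht ⊢
      refine ⟨ht.1, ?_⟩
      have h1 := card_im X (φ t) (hinj t ht.1)
      have h2 : X.card = 1 ∧ (im X (φ t)).card = 0 := by
        have := ht.2
        omega
      have h3 : im X (φ t) = ∅ := card_eq_zero.1 h2.2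
      have h4 : φ t x = 0 := by
        by_contra hne
        have : φ t x ∈ im X (φ t) := by
          unfold im
          exact mem_erase.2 ⟨hne, mem_image_of_mem _ hx⟩
        rw [h3] at this
        exact notMem_empty _ this
      rw [h4]
      exact dvd_zero _
    have htwo : ((T'.filter fun t => ε / 2 * lA < R t).card : ℝ) ≤ ε / 2 * T.card := by
      set S := T'.filter fun t => ε / 2 * lA < R t with hS
      have h1 : (S.card : ℝ) * (ε / 2 * lA) ≤ N * lA := by
        calc (S.card : ℝ) * (ε / 2 * lA) = ∑ t ∈ S, ε / 2 * lA := by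
              rw [sum_const, nsmul_eq_mul]
          _ ≤ ∑ t ∈ S, R t := sum_le_sum fun t ht => (mem_filter.1 ht).2.le
          _ ≤ ∑ t ∈ T', R t := sum_le_sum_of_subset_of_nonneg (filter_subset _ _)
              fun t ht _ => hR0 t ht
          _ ≤ N * lA := hR2
      rcases hlA0.eq_or_lt with hz | hz
      · have h2 : ∑ t ∈ T', R t ≤ 0 := by
          have := hR2
          rw [← hz, mul_zero] at this
          exact this
        have h3 : S = ∅ := by
          rw [hS, filter_eq_empty_iff]
          intro t ht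
          have h4 : R t ≤ ∑ t ∈ T', R t := single_le_sum hR0 ht
          rw [← hz, mul_zero]
          linarith
        rw [h3]
        simp only [card_empty, Nat.cast_zero]
        positivity
      · have h2 : (S.card : ℝ) * (ε / 2) ≤ N := by
          have : (S.card : ℝ) * (ε / 2) * lA ≤ N * lA := by linarith
          exact le_of_mul_le_mul_right this hz
        have h3 : N = ε ^ 2 / 4 * T.card := by
          rw [hN, hδ]
          field_simp
          ring
        rw [h3] at h2
        have h4 : (S.card : ℝ) * (ε / 2) ≤ ε / 2 * T.card * (ε / 2) := by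
          refine h2.trans (le_of_eq ?_)
          ring
        exact le_of_mul_le_mul_right h4 (by positivity)
    have hcard := card_le_card hsplit
    have hcard2 := hcard.trans (card_union_le _ _)
    have hcard3 : ((T.filter fun t => (M.divisors.card : ℝ) ^ 2 *
        ((X.image (φ t) * B).card : ℝ) <
          1 / (16 * ((smo m).divisors.card : ℝ) ^ 2) *
            ((X.card : ℝ) * B.card) ^ (1 - ε)).card : ℝ) ≤
        ((T.filter fun t => ¬ X.card ≤ 2 * (im X (φ t)).card).card : ℝ) +
          ((T'.filter fun t => ε / 2 * lA < R t).card : ℝ) := by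
      exact_mod_cast hcard2
    have hδε : δ ≤ ε / 2 := by
      rw [hδ]
      nlinarith
    have h5 : δ * T.card ≤ ε / 2 * T.card := mul_le_mul_of_nonneg_right hδε hTc
    linarith
  exact ⟨δ, hδ0, key⟩

end Pool.Agent.Helper96.Shf
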