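import Mathlib
import Pool.Graph.R_pool_sql_team_seeded_5cf16337.K3h12.Lat.Han

/-!
# Leaving out one of `k` summands of a sumset

Shearer's inequality (library) for the set of the lexicographically smallest representations.
-/

set_option autoImplicit false

namespace Pool.Agent.Helper96.Shf

open Finset
open scoped Pointwise

/-- the sum of all coordinates -/
def P {k : ℕ} (x : Fin (k + 1) → ℤ) : ℤ := x 0 + ∑ i : Fin k, x i.succ

/-- the sum of the coordinates different from `j` -/
def R {k : ℕ} (j : Fin k) (x : Fin (k + 1) → ℤ) : ℤ :=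
  x 0 + ∑ i ∈ Finset.univ.erase j, x i.succ

theorem P_eq {k : ℕ} (j : Fin k) (x : Fin (k + 1) → ℤ) : P x = R j x + x j.succ := by
  unfold P R
  rw [← Finset.sum_erase_add Finset.univ (fun i : Fin k => x i.succ) (Finset.mem_univ j)]
  ring

theorem R_congr {k : ℕ} (j : Fin k) {x y : Fin (k + 1) → ℤ} (h : ∀ i, i ≠ j.succ → y i = x i) :
    R j y = R j x := by
  unfold R
  rw [h 0 (Fin.succ_ne_zero j).symm]
  congr 1
  refine Finset.sum_congr rfl fun i hi => h _ ?_
  rw [Finset.mem_erase] at hi
  intro h2
  exact hi.1 (Fin.succ_injective _ h2)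

open Pool.Agent.K3h12.Lat (shearer q)

/-- the inequality of Gyarmati, Matolcsi and Ruzsa, in the form needed here -/
theorem gmr : ∀ k : ℕ, 1 ≤ k → ∀ (A : Finset ℤ) (Y : Fin k → Finset ℤ), A.Nonempty →
    (∀ j, (Y j).Nonempty) →
    ∃ j : Fin k, ((A + ∑ i, Y i).card : ℝ) ^ (1 - 1 / (k : ℝ)) ≤
      ((A + ∑ i ∈ Finset.univ.erase j, Y i).card : ℝ) := by
  classical
  intro k hk A Y hA hY
  let X : Fin (k + 1) → Finset ℤ := Fin.cons A Y
  let T : Finset (Fin (k + 1) → ℤ) := Fintype.piFinset X
  have hX0 : X 0 = A := rfl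
  have hXs : ∀ i : Fin k, X i.succ = Y i := fun i => rfl
  let S : Finset (Fin (k + 1) → ℤ) := T.filter fun x => ∀ y ∈ T, P y = P x → toLex x ≤ toLex y
  -- every sum is represented in `S`
  have hrep : A + ∑ i, Y i ⊆ S.image P := by
    intro z hz
    rw [Finset.mem_add] at hz
    obtain ⟨a, ha, b, hb, rfl⟩ := hz
    have hb' : b ∈ (∑ i, (Y i : Set ℤ)) := by
      rw [← Finset.coe_sum]; exact_mod_cast hb
    rw [Set.mem_fintype_sum] at hb'
    obtain ⟨g, hg, rfl⟩ := hb'
    have hfib : (T.filter fun x => P x = a + ∑ i, g i).Nonempty := by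
      refine ⟨Fin.cons a g, ?_⟩
      rw [Finset.mem_filter, Fintype.mem_piFinset]
      refine ⟨fun i => ?_, ?_⟩
      · refine Fin.cases ?_ (fun i => ?_) i
        · exact ha
        · exact hg i
      · simp [P]
    obtain ⟨x, hx, hmin⟩ := Finset.exists_min_image _ (fun x => toLex x) hfib
    rw [Finset.mem_filter] at hx
    rw [Finset.mem_image]
    refine ⟨x, ?_, hx.2⟩
    rw [Finset.mem_filter]
    refine ⟨hx.1, fun y hy hyx => hmin y ?_⟩
    rw [Finset.mem_filter]
    exact ⟨hy, hyx.trans hx.2⟩
  have hcard : (A + ∑ i, Y i).card ≤ S.card :=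
    (Finset.card_le_card hrep).trans Finset.card_image_le
  have hprodne : (A + ∑ i, Y i).Nonempty := by
    choose g hg using hY
    obtain ⟨a, ha⟩ := hA
    refine ⟨a + ∑ i, g i, Finset.add_mem_add ha ?_⟩
    have : (∑ i, g i) ∈ (∑ i, (Y i : Set ℤ)) := by
      rw [Set.mem_fintype_sum]
      exact ⟨g, fun i => hg i, rfl⟩
    rw [← Finset.coe_sum] at this
    exact_mod_cast this
  have hSne : S.Nonempty := by
    rw [← Finset.card_pos]
    exact lt_of_lt_of_le hprodne.card_pos hcard
  obtain ⟨j, hj⟩ := shearer hk S hSne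
  refine ⟨j, ?_⟩
  have hexp : 0 ≤ 1 - 1 / (k : ℝ) := by
    have : (1 : ℝ) ≤ k := by exact_mod_cast hk
    rw [sub_nonneg, div_le_one (by linarith)]
    exact this
  have h1 : ((A + ∑ i, Y i).card : ℝ) ^ (1 - 1 / (k : ℝ)) ≤ (S.card : ℝ) ^ (1 - 1 / (k : ℝ)) :=
    Real.rpow_le_rpow (Nat.cast_nonneg _) (by exact_mod_cast hcard) hexp
  refine h1.trans (hj.trans ?_)
  have key : ∀ x ∈ S, ∀ y ∈ S, R j x = R j y → ¬ toLex (q j.succ x) < toLex (q j.succ y) := by
    intro x hx y hy hR hlt
    rw [Finset.mem_filter] at hx hy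
    let y' : Fin (k + 1) → ℤ := Function.update x j.succ (y j.succ)
    have hy'T : y' ∈ T := by
      rw [Fintype.mem_piFinset]
      intro i
      by_cases hi : i = j.succ
      · rw [hi]
        show Function.update x j.succ (y j.succ) j.succ ∈ X j.succ
        rw [Function.update_self]
        exact (Fintype.mem_piFinset.mp hy.1) j.succ
      · show Function.update x j.succ (y j.succ) i ∈ X i
        rw [Function.update_of_ne hi]
        exact (Fintype.mem_piFinset.mp hx.1) i
    have hR' : R j y' = R j x := R_congr j (fun i hi => Function.update_of_ne hi _ _)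
    have hP : P y' = P y := by
      rw [P_eq j y', P_eq j y, hR', hR]
      congr 1
      exact Function.update_self _ _ _
    have h2 := hy.2 y' hy'T hP
    have e1 : y' = q j.succ x + Pi.single j.succ (y j.succ) := by
      funext i
      by_cases hi : i = j.succ
      · rw [hi]
        simp [y', q]
      · simp [y', q, Function.update_of_ne hi, Pi.single_eq_of_ne hi]
    have e2 : y = q j.succ y + Pi.single j.succ (y j.succ) := by
      funext i
      by_cases hi : i = j.succ
      · rw [hi]
        simp [q]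
      · simp [q, Function.update_of_ne hi, Pi.single_eq_of_ne hi]
    have h3 : toLex y' < toLex y := by
      rw [e1]
      conv_rhs => rw [e2]
      rw [toLex_add, toLex_add]
      exact add_lt_add_left hlt _
    exact absurd h2 (not_le.mpr h3)
  have hfin : (S.image (q j.succ)).card ≤ (A + ∑ i ∈ Finset.univ.erase j, Y i).card := by
    refine Finset.card_le_card_of_injOn (R j) ?_ ?_
    · intro t ht
      rw [Finset.mem_coe, Finset.mem_image] at ht
      obtain ⟨x, hx, rfl⟩ := ht
      rw [Finset.mem_filter] at hx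
      have e : R j (q j.succ x) = R j x := R_congr j (fun i hi => Function.update_of_ne hi _ _)
      rw [e]
      refine Finset.add_mem_add ((Fintype.mem_piFinset.mp hx.1) 0) ?_
      have : (∑ i ∈ Finset.univ.erase j, x i.succ) ∈
          (∑ i ∈ Finset.univ.erase j, (Y i : Set ℤ)) := by
        rw [Set.mem_finsetSum]
        exact ⟨fun i => x i.succ, fun {i} _ => (Fintype.mem_piFinset.mp hx.1) i.succ, rfl⟩
      rw [← Finset.coe_sum] at this
      exact_mod_cast this
    · intro t ht t' ht' htt
      rw [Finset.mem_coe, Finset.mem_image] at ht ht'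
      obtain ⟨x, hx, rfl⟩ := ht
      obtain ⟨y, hy, rfl⟩ := ht'
      have e : R j (q j.succ x) = R j x := R_congr j (fun i hi => Function.update_of_ne hi _ _)
      have e' : R j (q j.succ y) = R j y := R_congr j (fun i hi => Function.update_of_ne hi _ _)
      have h2 : R j x = R j y := by rw [← e, ← e']; exact htt
      have h3 := key x hx y hy h2
      have h4 := key y hy x hx h2.symm
      exact toLex_inj.mp (le_antisymm (not_lt.mp h4) (not_lt.mp h3))
  exact_mod_cast hfin

end Pool.Agent.Helper96.Shf
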