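import Mathlib

/-!
# Concentration of subset sums in abelian groups
-/

set_option autoImplicit false

namespace Pool.Agent.Helper96.Shf

open Finset
open scoped Classical

variable {G : Type*} [AddCommGroup G] {ι : Type*}

/-- the number of the subsets of `I` with a given sum -/
noncomputable def cnt (h : ι → G) (I : Finset ι) (r : G) : ℕ :=
  (I.powerset.filter fun J => ∑ j ∈ J, h j = r).card

lemma cnt_insert (h : ι → G) (I : Finset ι) {i : ι} (hi : i ∉ I) (r : G) :
    cnt h (insert i I) r = cnt h I r + cnt h I (r - h i) := by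
  unfold cnt
  rw [powerset_insert, filter_union, card_union_of_disjoint, filter_image,
    card_image_of_injOn]
  · congr 2
    ext J
    simp only [mem_filter, mem_powerset]
    constructor
    · rintro ⟨h1, h2⟩
      refine ⟨h1, ?_⟩
      rw [sum_insert (fun h => hi (h1 h))] at h2
      rw [← h2]; abel
    · rintro ⟨h1, h2⟩
      refine ⟨h1, ?_⟩
      rw [sum_insert (fun h => hi (h1 h)), h2]; abel
  · intro J hJ J' hJ' hh
    simp only [coe_filter, mem_powerset, Set.mem_setOf_eq] at hJ hJ'
    have h1 : i ∉ J := fun h => hi (hJ.1 h)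
    have h2 : i ∉ J' := fun h => hi (hJ'.1 h)
    have := congrArg (fun s => s.erase i) hh
    simpa [erase_insert h1, erase_insert h2] using this
  · rw [disjoint_left]
    intro J hJ hJ'
    rw [mem_filter, mem_powerset] at hJ
    rw [mem_filter, mem_image] at hJ'
    obtain ⟨⟨J'', _, rfl⟩, _⟩ := hJ'
    exact hi (hJ.1 (mem_insert_self _ _))

lemma cnt_le (h : ι → G) (I : Finset ι) (r : G) : cnt h I r ≤ 2 ^ I.card := by
  unfold cnt
  rw [← card_powerset]
  exact card_filter_le _ _

/-- the subsets with sums in a set of values -/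
lemma sum_cnt_le (h : ι → G) (I : Finset ι) (R : Finset G) :
    ∑ r ∈ R, cnt h I r ≤ 2 ^ I.card := by
  unfold cnt
  rw [← card_powerset, ← card_biUnion]
  · exact card_le_card (biUnion_subset.2 fun r _ => filter_subset _ _)
  · intro r _ r' _ hne
    rw [Function.onFun, disjoint_left]
    intro J hJ hJ'
    rw [mem_filter] at hJ hJ'
    exact hne (hJ.2.symm.trans hJ'.2)

/-- disjoint blocks -/
lemma cnt_union (h : ι → G) (I K : Finset ι) (hd : Disjoint I K) (r : G) :
    cnt h (I ∪ K) r = ∑ J ∈ K.powerset, cnt h I (r - ∑ j ∈ J, h j) := by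
  induction K using Finset.induction_on generalizing r with
  | empty => simp
  | insert i K hi ih =>
    have hiI : i ∉ I := fun h => (disjoint_left.1 hd h) (mem_insert_self _ _)
    have hd' : Disjoint I K := disjoint_of_subset_right (subset_insert _ _) hd
    have e : I ∪ insert i K = insert i (I ∪ K) := by
      ext x; simp only [mem_union, mem_insert]; tauto
    have hiU : i ∉ I ∪ K := by
      rw [mem_union]; tauto
    rw [e, cnt_insert _ _ hiU, ih hd', ih hd', sum_powerset_insert hi]
    congr 1
    refine sum_congr rfl fun J hJ => ?_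
    rw [mem_powerset] at hJ
    rw [sum_insert (fun h => hi (hJ h))]
    congr 1
    abel

/-- the number of subset sums of elements of large order -/
lemma many_sums (h : ι → G) (m : ℕ) (K : Finset ι) (hK : ∀ i ∈ K, ∀ k : ℕ, 0 < k → k < m →
    k • h i ≠ 0) :
    min (K.card + 1) m ≤ (K.powerset.image fun J => ∑ j ∈ J, h j).card := by
  induction K using Finset.induction_on with
  | empty => simp
  | insert i K hi ih =>
    have ih' := ih fun j hj => hK j (mem_insert_of_mem hj)
    set S := K.powerset.image fun J => ∑ j ∈ J, h j with hS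
    have hsub : S ⊆ (insert i K).powerset.image fun J => ∑ j ∈ J, h j :=
      image_subset_image (powerset_mono.2 (subset_insert _ _))
    have hsub2 : S.image (fun s => s + h i) ⊆
        (insert i K).powerset.image fun J => ∑ j ∈ J, h j := by
      intro x hx
      rw [mem_image] at hx
      obtain ⟨s, hs, rfl⟩ := hx
      rw [hS, mem_image] at hs
      obtain ⟨J, hJ, rfl⟩ := hs
      rw [mem_powerset] at hJ
      rw [mem_image]
      refine ⟨insert i J, mem_powerset.2 (insert_subset_insert _ hJ), ?_⟩
      rw [sum_insert (fun h => hi (hJ h))]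
      abel
    rw [card_insert_of_notMem hi]
    by_cases hcl : S.image (fun s => s + h i) ⊆ S
    · -- closed: at least `m` elements
      have h0 : (0 : G) ∈ S := by
        rw [hS, mem_image]
        exact ⟨∅, by simp, by simp⟩
      have hk : ∀ k : ℕ, k • h i ∈ S := by
        intro k
        induction k with
        | zero => simpa using h0
        | succ k ihk =>
          rw [succ_nsmul]
          exact hcl (mem_image_of_mem _ ihk)
      have hinj : Set.InjOn (fun k : ℕ => k • h i) (range m : Set ℕ) := by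
        have key : ∀ a b : ℕ, a < m → b < m → a < b → a • h i ≠ b • h i := by
          intro a b _ hb hab he
          refine hK i (mem_insert_self _ _) (b - a) (by omega) (by omega) ?_
          have : b • h i = (b - a) • h i + a • h i := by
            rw [← add_nsmul]; congr 1; omega
          rw [this] at he
          have := sub_eq_zero.2 he.symm
          simpa using this
        intro a ha b hb he
        simp only [coe_range, Set.mem_Iio] at ha hb
        rcases lt_trichotomy a b with h1 | h1 | h1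
        · exact absurd he (key a b ha hb h1)
        · exact h1
        · exact absurd he.symm (key b a hb ha h1)
      have h1 : m ≤ S.card := by
        have h2 : ((range m).image fun k : ℕ => k • h i).card = m := by
          rw [card_image_of_injOn hinj, card_range]
        rw [← h2]
        refine card_le_card ?_
        intro x hx
        rw [mem_image] at hx
        obtain ⟨k, _, rfl⟩ := hx
        exact hk k
      exact (min_le_right _ _).trans (h1.trans (card_le_card hsub))
    · -- not closed: one more element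
      rw [not_subset] at hcl
      obtain ⟨x, hx, hxS⟩ := hcl
      have h1 : (insert x S).card ≤
          ((insert i K).powerset.image fun J => ∑ j ∈ J, h j).card := by
        refine card_le_card (insert_subset (hsub2 hx) hsub)
      rw [card_insert_of_notMem hxS] at h1
      refine le_trans ?_ h1
      omega

/-- one block lowers the concentration -/
lemma block (h : ι → G) (I K : Finset ι) (hd : Disjoint I K) {L : ℕ} (hL : K.card = L)
    (hK : ∀ i ∈ K, ∀ k : ℕ, 0 < k → k < L + 1 → k • h i ≠ 0) {Q δ : ℝ} (hδ : δ ≤ Q)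
    (hLδ : 2 < (L + 1) * δ)
    (hI : ∀ r, (cnt h I r : ℝ) ≤ Q * 2 ^ I.card) (r : G) :
    (cnt h (I ∪ K) r : ℝ) ≤ Q * (1 - 1 / 2 ^ (L + 1)) * 2 ^ (I ∪ K).card := by
  have h2 : (0 : ℝ) < 2 ^ I.card := by positivity
  have hδ0 : 0 < δ := by
    by_contra hh
    push Not at hh
    have : ((L : ℝ) + 1) * δ ≤ 0 := mul_nonpos_of_nonneg_of_nonpos (by positivity) hh
    linarith
  -- some subset of the block has a small count
  obtain ⟨J0, hJ0, hlt⟩ : ∃ J ∈ K.powerset, (cnt h I (r - ∑ j ∈ J, h j) : ℝ) <
      Q / 2 * 2 ^ I.card := by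
    by_contra hcon
    push Not at hcon
    have hms := many_sums h (L + 1) K hK
    rw [hL, min_self] at hms
    set S := K.powerset.image fun J => ∑ j ∈ J, h j with hS
    have h3 := sum_cnt_le h I (S.image fun s => r - s)
    have hinj : Set.InjOn (fun s => r - s) (S : Set G) := fun a _ b _ hab => by
      simpa using hab
    rw [sum_image hinj] at h3
    have h4 : ∀ s ∈ S, Q / 2 * 2 ^ I.card ≤ (cnt h I (r - s) : ℝ) := by
      intro s hs
      rw [hS, mem_image] at hs
      obtain ⟨J, hJ, rfl⟩ := hs
      exact hcon J hJ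
    have h5 : (S.card : ℝ) * (Q / 2 * 2 ^ I.card) ≤ 2 ^ I.card := by
      calc (S.card : ℝ) * (Q / 2 * 2 ^ I.card) = ∑ s ∈ S, Q / 2 * 2 ^ I.card := by
            rw [sum_const, nsmul_eq_mul]
        _ ≤ ∑ s ∈ S, (cnt h I (r - s) : ℝ) := sum_le_sum h4
        _ ≤ 2 ^ I.card := by exact_mod_cast h3
    have h6 : ((L : ℝ) + 1) ≤ S.card := by exact_mod_cast hms
    have h7 : ((L : ℝ) + 1) * δ ≤ S.card * Q := mul_le_mul h6 hδ hδ0.le (by positivity)
    have h8 : (S.card : ℝ) * Q * 2 ^ I.card ≤ 2 * 2 ^ I.card := by nlinarith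
    have h9 : (S.card : ℝ) * Q ≤ 2 := le_of_mul_le_mul_right h8 h2
    linarith
  rw [cnt_union h I K hd, card_union_of_disjoint hd, hL]
  push_cast
  have h3 : ∑ J ∈ K.powerset, (cnt h I (r - ∑ j ∈ J, h j) : ℝ) =
      (∑ J ∈ K.powerset.erase J0, (cnt h I (r - ∑ j ∈ J, h j) : ℝ)) +
        (cnt h I (r - ∑ j ∈ J0, h j) : ℝ) := (sum_erase_add _ _ hJ0).symm
  have h4 : ∑ J ∈ K.powerset.erase J0, (cnt h I (r - ∑ j ∈ J, h j) : ℝ) ≤
      ((2 : ℝ) ^ L - 1) * (Q * 2 ^ I.card) := by
    calc ∑ J ∈ K.powerset.erase J0, (cnt h I (r - ∑ j ∈ J, h j) : ℝ)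
        ≤ ∑ J ∈ K.powerset.erase J0, Q * 2 ^ I.card := sum_le_sum fun J _ => hI _
      _ = ((2 : ℝ) ^ L - 1) * (Q * 2 ^ I.card) := by
          rw [sum_const, nsmul_eq_mul, card_erase_of_mem hJ0, card_powerset, hL,
            Nat.cast_sub Nat.one_le_two_pow]
          push_cast
          ring
  rw [h3]
  have h5 : Q * (1 - 1 / 2 ^ (L + 1)) * 2 ^ (I.card + L) =
      ((2 : ℝ) ^ L - 1) * (Q * 2 ^ I.card) + Q / 2 * 2 ^ I.card := by
    rw [pow_add, pow_succ]
    field_simp
    ring
  rw [h5]
  linarith

/-- adding arbitrary elements does not increase the concentration -/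
lemma enlarge (h : ι → G) (I K : Finset ι) (hd : Disjoint I K) {Q : ℝ}
    (hI : ∀ r, (cnt h I r : ℝ) ≤ Q * 2 ^ I.card) (r : G) :
    (cnt h (I ∪ K) r : ℝ) ≤ Q * 2 ^ (I ∪ K).card := by
  rw [cnt_union h I K hd, card_union_of_disjoint hd]
  push_cast
  calc ∑ J ∈ K.powerset, (cnt h I (r - ∑ j ∈ J, h j) : ℝ)
      ≤ ∑ J ∈ K.powerset, Q * 2 ^ I.card := sum_le_sum fun J _ => hI _
    _ = Q * 2 ^ (I.card + K.card) := by
        rw [sum_const, nsmul_eq_mul, card_powerset, pow_add]
        push_cast
        ring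

/-- **Concentration of subset sums.** -/
theorem concentration (δ : ℝ) (hδ : 0 < δ) : ∃ n0 m0 : ℕ, 0 < m0 ∧
    ∀ {G : Type} [AddCommGroup G] {ι : Type} (h : ι → G) (U I : Finset ι), I ⊆ U → n0 ≤ I.card →
      (∀ i ∈ I, ∀ k : ℕ, 0 < k → k < m0 → k • h i ≠ 0) →
      ∀ r, ((U.powerset.filter fun J => ∑ j ∈ J, h j = r).card : ℝ) ≤ δ * 2 ^ U.card := by
  obtain ⟨L, hL⟩ := exists_nat_gt (2 / δ)
  have hLδ : 2 < ((L : ℝ) + 1) * δ := by
    rw [div_lt_iff₀ hδ] at hL
    nlinarith
  set ρ : ℝ := 1 - 1 / 2 ^ (L + 1) with hρ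
  have hρ0 : 0 ≤ ρ := by
    rw [hρ, sub_nonneg, div_le_one (by positivity)]
    exact one_le_pow₀ (by norm_num)
  have hρ1 : ρ < 1 := by
    rw [hρ]
    have : (0 : ℝ) < 1 / 2 ^ (L + 1) := by positivity
    linarith
  obtain ⟨k, hk⟩ := exists_pow_lt_of_lt_one hδ hρ1
  refine ⟨k * L, L + 1, Nat.succ_pos _, ?_⟩
  intro G _ ι h U I hIU hI hord r
  -- the induction over the blocks
  have main : ∀ j : ℕ, j ≤ k → ∀ I' : Finset ι, I' ⊆ I → I'.card = j * L →
      ∀ r, (cnt h I' r : ℝ) ≤ max δ (ρ ^ j) * 2 ^ I'.card := by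
    intro j
    induction j with
    | zero =>
      intro _ I' _ hc r
      have h1 : (cnt h I' r : ℝ) ≤ 2 ^ I'.card := by exact_mod_cast cnt_le h I' r
      refine h1.trans ?_
      have : (1 : ℝ) ≤ max δ (ρ ^ 0) := by rw [pow_zero]; exact le_max_right _ _
      nlinarith [show (0 : ℝ) < 2 ^ I'.card by positivity]
    | succ j ih =>
      intro hj I' hI' hc r
      obtain ⟨I1, hI1, hc1⟩ := exists_subset_card_eq (s := I') (n := j * L) (by
        rw [hc]; exact Nat.mul_le_mul_right _ (Nat.le_succ _))
      have ih' := ih (by omega) I1 (hI1.trans hI') hc1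
      have hd : Disjoint I1 (I' \ I1) := disjoint_sdiff
      have hU : I1 ∪ (I' \ I1) = I' := union_sdiff_of_subset hI1
      have hcK : (I' \ I1).card = L := by
        rw [card_sdiff_of_subset hI1, hc, hc1, Nat.succ_mul]
        omega
      have hb := block h I1 (I' \ I1) hd hcK (fun i hi => hord i (hI' (sdiff_subset hi)))
        (le_max_left δ (ρ ^ j)) hLδ ih' r
      rw [hU] at hb
      refine hb.trans ?_
      refine mul_le_mul_of_nonneg_right ?_ (by positivity)
      rw [← hρ]
      rcases le_total δ (ρ ^ j) with h1 | h1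
      · rw [max_eq_right h1, ← pow_succ]
        exact le_max_right _ _
      · rw [max_eq_left h1]
        refine le_trans ?_ (le_max_left _ _)
        nlinarith
  obtain ⟨I0, hI0, hc0⟩ := exists_subset_card_eq hI
  have h1 := main k le_rfl I0 hI0 hc0
  rw [max_eq_left hk.le] at h1
  have hU : I0 ∪ (U \ I0) = U := union_sdiff_of_subset (hI0.trans hIU)
  have h2 := enlarge h I0 (U \ I0) disjoint_sdiff h1 r
  rw [hU] at h2
  exact h2

end Pool.Agent.Helper96.Shf
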