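import Mathlib
import Pool.Agent.Helper96.Shf.LO
import Pool.Agent.Helper96.Shf.Fam
import Pool.Agent.Helper96.Shf.Gmr

/-!
# Subset sums modulo prime powers, and sumsets with many summands
-/

set_option autoImplicit false

namespace Pool.Agent.Helper96.Shf

open Finset
open scoped Classical Pointwise

/-- multiples of a step are not divisible by a high power of `p` -/
lemma not_dvd_mul {p v j k m : ℕ} {h : ℤ} (hp : p.Prime) (hh : ¬ (p : ℤ) ^ (v + 1) ∣ h)
    (hk : 0 < k) (hkm : k < m) (hj : m * p ^ v ≤ p ^ j) : ¬ (p : ℤ) ^ j ∣ k * h := by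
  intro hd
  have h0 : h ≠ 0 := by
    rintro rfl
    exact hh (dvd_zero _)
  have h1 : p ^ j ∣ k * h.natAbs := by
    have := Int.natAbs_dvd_natAbs.2 hd
    rw [Int.natAbs_mul, Int.natAbs_pow, Int.natAbs_natCast, Int.natAbs_natCast] at this
    exact this
  have hn0 : h.natAbs ≠ 0 := Int.natAbs_ne_zero.2 h0
  have h2 : h.natAbs.factorization p ≤ v := by
    by_contra hcon
    push Not at hcon
    refine hh ?_
    have h3 : p ^ (v + 1) ∣ h.natAbs :=
      (hp.pow_dvd_iff_le_factorization hn0).2 hcon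
    have h4 := Int.natCast_dvd.2 h3
    push_cast at h4
    exact h4
  have h3 := (hp.pow_dvd_iff_le_factorization (mul_ne_zero hk.ne' hn0)).1 h1
  rw [Nat.factorization_mul hk.ne' hn0, Finsupp.add_apply] at h3
  have h4 : p ^ k.factorization p ≤ k := Nat.le_of_dvd hk (Nat.ordProj_dvd k p)
  have h5 : p ^ j ≤ p ^ k.factorization p * p ^ v := by
    rw [← pow_add]
    exact Nat.pow_le_pow_right hp.pos (by omega)
  have h6 : p ^ k.factorization p * p ^ v ≤ k * p ^ v := Nat.mul_le_mul_right _ h4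
  have h7 : k * p ^ v < m * p ^ v := Nat.mul_lt_mul_of_pos_right hkm (pow_pos hp.pos _)
  omega

/-- **Subset sums in residue classes.** -/
theorem classes (δ : ℝ) (hδ : 0 < δ) : ∃ n0 m0 : ℕ,
    ∀ {ι : Type} (h : ι → ℤ) (U : Finset ι) (M K : ℕ),
      (∀ p : ℕ, p.Prime →
        (U.filter fun i => (p : ℤ) ^ (M.factorization p + 1) ∣ h i).card ≤ K) →
      n0 + K ≤ U.card → ∀ x : ℤ, ∀ p : ℕ, p.Prime → ∀ j : ℕ, m0 * p ^ M.factorization p ≤ p ^ j →
      ((U.powerset.filter fun J => (p : ℤ) ^ j ∣ x + ∑ i ∈ J, h i).card : ℝ) ≤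
        δ * (U.powerset.card : ℝ) := by
  obtain ⟨n0, m0, hm0, H⟩ := concentration δ hδ
  refine ⟨n0, m0, ?_⟩
  intro ι h U M K hU hc x p hp j hj
  set I := U.filter fun i => ¬ (p : ℤ) ^ (M.factorization p + 1) ∣ h i with hI
  have hIc : n0 ≤ I.card := by
    have h1 := card_filter_add_card_filter_not (s := U)
      (fun i => (p : ℤ) ^ (M.factorization p + 1) ∣ h i)
    have h2 := hU p hp
    have h3 : I.card = (U.filter fun i => ¬ (p : ℤ) ^ (M.factorization p + 1) ∣ h i).card := by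
      rw [hI]
    omega
  have : NeZero (p ^ j) := ⟨pow_ne_zero _ hp.ne_zero⟩
  have h1 := H (G := ZMod (p ^ j)) (fun i => ((h i : ℤ) : ZMod (p ^ j))) U I
    (filter_subset _ _) hIc (by
      intro i hi k hk hkm hz
      rw [hI, mem_filter] at hi
      refine not_dvd_mul hp hi.2 hk hkm hj ?_
      have h2 : (((k : ℤ) * h i : ℤ) : ZMod (p ^ j)) = 0 := by
        rw [nsmul_eq_mul] at hz
        push_cast
        exact hz
      rw [ZMod.intCast_zmod_eq_zero_iff_dvd] at h2
      push_cast at h2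
      exact h2) (-(x : ZMod (p ^ j)))
  rw [card_powerset]
  push_cast
  refine le_trans (le_of_eq ?_) h1
  congr 2
  ext J
  simp only [mem_filter]
  refine and_congr_right fun _ => ?_
  have h2 : (p : ℤ) ^ j ∣ x + ∑ i ∈ J, h i ↔ ((x + ∑ i ∈ J, h i : ℤ) : ZMod (p ^ j)) = 0 := by
    rw [ZMod.intCast_zmod_eq_zero_iff_dvd]
    push_cast
    rfl
  rw [h2]
  push_cast
  rw [add_comm, add_eq_zero_iff_eq_neg]

/-- membership in a sum of finite sets -/
lemma mem_fsum {ι : Type} (s : Finset ι) (G : ι → Finset ℤ) (g : ι → ℤ) (hg : ∀ i ∈ s, g i ∈ G i) :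
    ∑ i ∈ s, g i ∈ ∑ i ∈ s, G i := by
  have : (∑ i ∈ s, g i) ∈ (∑ i ∈ s, (G i : Set ℤ)) := by
    rw [Set.mem_finsetSum]
    exact ⟨g, fun {i} hi => hg i hi, rfl⟩
  rw [← Finset.coe_sum] at this
  exact_mod_cast this

/-- **Sumsets with many summands.** -/
theorem cubes (ε : ℝ) (hε : 0 < ε) (hε1 : ε ≤ 1) (K : ℕ) : ∃ (m : ℕ) (c : ℝ), 0 < c ∧
    ∀ n : ℕ, m ≤ n → ∀ (G : Fin n → Finset ℤ) (h : Fin n → ℤ) (M : ℕ), M ≠ 0 →
      (∀ i, ∃ g ∈ G i, g + h i ∈ G i) →
      (∀ p : ℕ, p.Prime →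
        (univ.filter fun i => (p : ℤ) ^ (M.factorization p + 1) ∣ h i).card ≤ K) →
      ∀ A : Finset ℤ, A.Nonempty → ∀ B : Finset ℤ, (∃ b ∈ B, b ≠ 0) →
      c * (((A + ∑ i, G i).card : ℝ) * B.card) ^ (1 - ε) ≤
        (M.divisors.card : ℝ) ^ 2 * (((A + ∑ i, G i) * B).card : ℝ) := by
  obtain ⟨δ, hδ, H1⟩ := fam (ε / 2) (by linarith) (by linarith)
  obtain ⟨n0, m0, H2⟩ := classes δ hδ
  obtain ⟨c, hc, H3⟩ := H1 m0
  obtain ⟨k, hk⟩ := exists_nat_gt (2 / ε)
  have hk0 : (0 : ℝ) < k := lt_trans (by positivity) hk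
  have hk1 : 1 ≤ k := by
    have : 0 < k := by exact_mod_cast hk0
    omega
  have hkε : 1 / (k : ℝ) ≤ ε / 2 := by
    rw [div_lt_iff₀ hε] at hk
    rw [div_le_iff₀ hk0]
    linarith
  set n1 := n0 + K + 1 with hn1
  refine ⟨k * n1, c, hc, ?_⟩
  intro n hn G h M hM hG hp A hA B hB
  choose g hg hgh using hG
  -- the blocks
  let b : Fin n → Option (Fin k) := fun i =>
    if hi : (i : ℕ) / n1 < k then some ⟨(i : ℕ) / n1, hi⟩ else none
  let bl : Fin k → Finset (Fin n) := fun l => univ.filter fun i => b i = some l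
  have hbl : ∀ l, n1 ≤ (bl l).card := by
    intro l
    have hlt : ∀ r : Fin n1, (l : ℕ) * n1 + r < n := by
      intro r
      have h1 : ((l : ℕ) + 1) * n1 ≤ k * n1 := Nat.mul_le_mul_right _ l.2
      have h2 := r.2
      rw [Nat.succ_mul] at h1
      omega
    have h1 : (univ.image fun r : Fin n1 => (⟨(l : ℕ) * n1 + r, hlt r⟩ : Fin n)) ⊆ bl l := by
      intro i hi
      rw [mem_image] at hi
      obtain ⟨r, _, rfl⟩ := hi
      show _ ∈ univ.filter fun i => b i = some l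
      rw [mem_filter]
      refine ⟨mem_univ _, ?_⟩
      have h3 : ((l : ℕ) * n1 + r) / n1 = l := by
        rw [mul_comm, Nat.mul_add_div (by omega), Nat.div_eq_of_lt r.2, add_zero]
      show (if hi : ((l : ℕ) * n1 + r) / n1 < k then some (⟨((l : ℕ) * n1 + r) / n1, hi⟩ : Fin k)
        else none) = some l
      rw [dif_pos (by rw [h3]; exact l.2)]
      congr 1
      exact Fin.ext h3
    have h2 : (univ.image fun r : Fin n1 => (⟨(l : ℕ) * n1 + r, hlt r⟩ : Fin n)).card = n1 := by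
      rw [card_image_of_injective, card_univ, Fintype.card_fin]
      intro r r' hrr
      have := congrArg Fin.val hrr
      simp only at this
      exact Fin.ext (by omega)
    rw [← h2]
    exact card_le_card h1
  let Y : Fin k → Finset ℤ := fun l => ∑ i ∈ bl l, G i
  let A' : Finset ℤ := A + ∑ i ∈ univ.filter (fun i => b i = none), G i
  have hsum : A + ∑ i, G i = A' + ∑ l, Y l := by
    have h1 : ∑ o : Option (Fin k), ∑ i ∈ univ.filter (fun i => b i = o), G i = ∑ i, G i :=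
      Finset.sum_fiberwise univ b G
    rw [Fintype.sum_option] at h1
    show A + ∑ i, G i = A + ∑ i ∈ univ.filter (fun i => b i = none), G i + ∑ l, ∑ i ∈ bl l, G i
    rw [← h1, add_assoc]
  have hY : ∀ l, (Y l).Nonempty := fun l => ⟨_, mem_fsum (bl l) G g fun i _ => hg i⟩
  have hA' : A'.Nonempty := by
    obtain ⟨a, ha⟩ := hA
    exact ⟨_, add_mem_add ha (mem_fsum _ G g fun i _ => hg i)⟩
  obtain ⟨l, hl⟩ := gmr k hk1 A' Y hA' hY
  rw [hsum]
  set Z := A' + ∑ l, Y l with hZ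
  set X := A' + ∑ i ∈ univ.erase l, Y i with hX
  have hXne : X.Nonempty := by
    obtain ⟨a, ha⟩ := hA'
    choose y hy using hY
    exact ⟨_, add_mem_add ha (mem_fsum _ Y y fun i _ => hy i)⟩
  have hXZ : X + Y l = Z := by
    rw [hX, hZ, add_assoc, sum_erase_add _ _ (mem_univ l)]
  set γ := ∑ i ∈ bl l, g i with hγ
  have hsub : ∀ J ∈ (bl l).powerset, X.image (fun x => x + (γ + ∑ i ∈ J, h i)) ⊆ Z := by
    intro J hJ z hz
    rw [mem_powerset] at hJ
    rw [mem_image] at hz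
    obtain ⟨x, hx, rfl⟩ := hz
    rw [← hXZ]
    refine add_mem_add hx ?_
    have h1 : γ + ∑ i ∈ J, h i = ∑ i ∈ bl l, (g i + if i ∈ J then h i else 0) := by
      rw [sum_add_distrib, sum_ite_mem, inter_eq_right.2 hJ]
    rw [h1]
    refine mem_fsum _ G _ fun i _ => ?_
    by_cases hi : i ∈ J
    · rw [if_pos hi]; exact hgh i
    · rw [if_neg hi, add_zero]; exact hg i
  -- a good subset sum
  have hbad := H3 (bl l).powerset M hM X hXne (fun J x => x + (γ + ∑ i ∈ J, h i))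
    (fun J _ x _ y _ hxy => by simpa using hxy)
    (fun x _ p hpp j hj => by
      have h1 := H2 h (bl l) M K (fun p hpp => (card_le_card (filter_subset_filter _
        (subset_univ _))).trans (hp p hpp)) (by have := hbl l; omega) (x + γ) p hpp j hj
      simpa only [add_assoc] using h1) B hB
  obtain ⟨J, hJ, hJgood⟩ : ∃ J ∈ (bl l).powerset,
      c * ((X.card : ℝ) * B.card) ^ (1 - ε / 2) ≤ (M.divisors.card : ℝ) ^ 2 *
        ((X.image (fun x => x + (γ + ∑ i ∈ J, h i)) * B).card : ℝ) := by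
    by_contra hcon
    push Not at hcon
    rw [filter_true_of_mem hcon] at hbad
    have h1 : (0 : ℝ) < (bl l).powerset.card := by
      exact_mod_cast card_pos.2 ⟨∅, by simp⟩
    nlinarith
  have hZB : ((X.image (fun x => x + (γ + ∑ i ∈ J, h i)) * B).card : ℝ) ≤ ((Z * B).card : ℝ) := by
    exact_mod_cast card_le_card (mul_subset_mul_right (hsub J hJ))
  refine le_trans ?_ (hJgood.trans (mul_le_mul_of_nonneg_left hZB (by positivity)))
  refine mul_le_mul_of_nonneg_left ?_ hc.le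
  -- comparison of the exponents
  have hZ1 : (1 : ℝ) ≤ Z.card := by
    have : Z.Nonempty := by
      rw [← hXZ]; exact hXne.add (hY l)
    exact_mod_cast card_pos.2 this
  have hB1 : (1 : ℝ) ≤ B.card := by
    obtain ⟨b0, hb0, _⟩ := hB
    exact_mod_cast card_pos.2 ⟨b0, hb0⟩
  have hk2 : 0 ≤ 1 - 1 / (k : ℝ) := by
    have : (1 : ℝ) ≤ k := by exact_mod_cast hk1
    rw [sub_nonneg, div_le_one hk0]
    exact this
  have h1 : ((Z.card : ℝ) * B.card) ^ (1 - 1 / (k : ℝ)) ≤ X.card * B.card := by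
    rw [Real.mul_rpow (by linarith) (by linarith)]
    refine mul_le_mul hl ?_ (by positivity) (by positivity)
    calc (B.card : ℝ) ^ (1 - 1 / (k : ℝ)) ≤ (B.card : ℝ) ^ (1 : ℝ) :=
          Real.rpow_le_rpow_of_exponent_le hB1 (by
            have : 0 < 1 / (k : ℝ) := by positivity
            linarith)
      _ = B.card := Real.rpow_one _
  have hZB1 : (1 : ℝ) ≤ (Z.card : ℝ) * B.card := by nlinarith
  calc ((Z.card : ℝ) * B.card) ^ (1 - ε)
      ≤ ((Z.card : ℝ) * B.card) ^ ((1 - 1 / (k : ℝ)) * (1 - ε / 2)) := by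
        refine Real.rpow_le_rpow_of_exponent_le hZB1 ?_
        have : 0 ≤ 1 / (k : ℝ) * (ε / 2) := by positivity
        nlinarith
    _ = (((Z.card : ℝ) * B.card) ^ (1 - 1 / (k : ℝ))) ^ (1 - ε / 2) :=
        Real.rpow_mul (by linarith) _ _
    _ ≤ ((X.card : ℝ) * B.card) ^ (1 - ε / 2) :=
        Real.rpow_le_rpow (by positivity) h1 (by linarith)

end Pool.Agent.Helper96.Shf
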