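import Mathlib
import Pool.Agent.Helper96.Shf.Cube

/-!
# Shifts, and translates of a pattern in a set with few products
-/

set_option autoImplicit false

namespace Pool.Agent.Helper96.Shf

open Finset
open scoped Classical Pointwise

/-- no residue class modulo a prime power which is large compared to `M` contains more than a
proportion `δ` of `T` -/
def Spread (δ : ℝ) (m M : ℕ) (T : Finset ℤ) : Prop :=
  ∀ p : ℕ, p.Prime → ∀ j : ℕ, m * p ^ M.factorization p ≤ p ^ j → ∀ r : ℤ,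
    ((T.filter fun t => (p : ℤ) ^ j ∣ t - r).card : ℝ) ≤ δ * T.card

theorem shifts (ε : ℝ) (hε : 0 < ε) (hε1 : ε ≤ 1) : ∃ δ : ℝ, 0 < δ ∧ ∀ m : ℕ, ∃ c : ℝ, 0 < c ∧
    ∀ (T : Finset ℤ) (M : ℕ), M ≠ 0 → Spread δ m M T →
      ∀ X : Finset ℤ, X.Nonempty → ∀ B : Finset ℤ, (∃ b ∈ B, b ≠ 0) →
      ((T.filter fun t => (M.divisors.card : ℝ) ^ 2 *
        (((X.image fun x => x + t) * B).card : ℝ) <
        c * ((X.card : ℝ) * B.card) ^ (1 - ε)).card : ℝ) ≤ ε * T.card := by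
  obtain ⟨δ, hδ, H⟩ := fam ε hε hε1
  refine ⟨δ, hδ, fun m => ?_⟩
  obtain ⟨c, hc, H1⟩ := H m
  refine ⟨c, hc, fun T M hM hT X hX B hB => ?_⟩
  refine H1 T M hM X hX (fun t x => x + t) (fun t _ x _ y _ hxy => by simpa using hxy) ?_ B hB
  intro x _ p hp j hj
  have := hT p hp j hj (-x)
  simpa only [sub_neg_eq_add, add_comm] using this

theorem few (η : ℝ) (hη : 0 < η) (hη1 : η ≤ 1) : ∃ δ : ℝ, 0 < δ ∧ ∀ m : ℕ, ∃ C : ℝ, 0 < C ∧
    ∀ (T : Finset ℤ) (M : ℕ), M ≠ 0 → Spread δ m M T → T.Nonempty →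
      ∀ A : Finset ℤ, ((A * A).card : ℝ) ≤ (A.card : ℝ) ^ (2 - η) →
      ∀ X : Finset ℤ, (∀ x ∈ X, ∀ t ∈ T, x + t ∈ A) →
      (X.card : ℝ) ≤ C * (M.divisors.card : ℝ) ^ 3 * (A.card : ℝ) ^ (1 - η / 2) := by
  set ε := η / 4 with hε
  have hε0 : 0 < ε := by positivity
  have hε4 : ε ≤ 1 / 4 := by rw [hε]; linarith
  obtain ⟨δ, hδ, H⟩ := shifts ε hε0 (by linarith)
  refine ⟨δ, hδ, fun m => ?_⟩
  obtain ⟨c', hc', H1⟩ := H m
  set c := min c' 1 with hc
  have hc0 : 0 < c := lt_min hc' one_pos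
  have hc1 : c ≤ 1 := min_le_right _ _
  refine ⟨(1 / c) ^ (4 / 3 : ℝ), by positivity, fun T M hM hT hTne A hAA X hX => ?_⟩
  obtain ⟨t0, ht0⟩ := hTne
  have hτ1 : (1 : ℝ) ≤ M.divisors.card := by
    have : 0 < M.divisors.card := card_pos.2 ⟨1, Nat.one_mem_divisors.2 hM⟩
    exact_mod_cast this
  have hC1 : (1 : ℝ) ≤ (1 / c) ^ (4 / 3 : ℝ) :=
    Real.one_le_rpow (by rw [le_div_iff₀ hc0]; linarith) (by norm_num)
  rcases X.eq_empty_or_nonempty with rfl | hXne
  · simp only [card_empty, Nat.cast_zero]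
    positivity
  have hAne : A.Nonempty := by
    obtain ⟨x, hx⟩ := hXne
    exact ⟨_, hX x hx t0 ht0⟩
  have hA1 : (1 : ℝ) ≤ A.card := by exact_mod_cast card_pos.2 hAne
  have hX1 : (1 : ℝ) ≤ X.card := by exact_mod_cast card_pos.2 hXne
  by_cases hA0 : ∃ a ∈ A, a ≠ 0
  · have hbad := H1 T M hM hT X hXne A hA0
    obtain ⟨t, ht, hgood⟩ : ∃ t ∈ T, c' * ((X.card : ℝ) * A.card) ^ (1 - ε) ≤
        (M.divisors.card : ℝ) ^ 2 * (((X.image fun x => x + t) * A).card : ℝ) := by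
      by_contra hcon
      push Not at hcon
      rw [filter_true_of_mem hcon] at hbad
      have h1 : (0 : ℝ) < T.card := by exact_mod_cast card_pos.2 ⟨t0, ht0⟩
      nlinarith
    have hsub : (X.image fun x => x + t) * A ⊆ A * A := by
      refine mul_subset_mul_right fun y hy => ?_
      rw [mem_image] at hy
      obtain ⟨x, hx, rfl⟩ := hy
      exact hX x hx t ht
    have h1 : c * ((X.card : ℝ) * A.card) ^ (1 - ε) ≤
        (M.divisors.card : ℝ) ^ 2 * (A.card : ℝ) ^ (2 - η) := by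
      calc c * ((X.card : ℝ) * A.card) ^ (1 - ε) ≤ c' * ((X.card : ℝ) * A.card) ^ (1 - ε) :=
            mul_le_mul_of_nonneg_right (min_le_left _ _) (by positivity)
        _ ≤ (M.divisors.card : ℝ) ^ 2 * (((X.image fun x => x + t) * A).card : ℝ) := hgood
        _ ≤ (M.divisors.card : ℝ) ^ 2 * ((A * A).card : ℝ) :=
            mul_le_mul_of_nonneg_left (by exact_mod_cast card_le_card hsub) (by positivity)
        _ ≤ _ := mul_le_mul_of_nonneg_left hAA (by positivity)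
    -- take the power `1 / (1 - ε)`
    have hε1 : 0 < 1 - ε := by linarith
    have h2 : ((X.card : ℝ) * A.card) ^ (1 - ε) ≤
        (1 / c) * (M.divisors.card : ℝ) ^ 2 * (A.card : ℝ) ^ (2 - η) := by
      rw [mul_assoc, one_div, ← div_eq_inv_mul, le_div_iff₀ hc0]
      linarith
    have h3 := Real.rpow_le_rpow (by positivity) h2 (show 0 ≤ 1 / (1 - ε) by positivity)
    rw [← Real.rpow_mul (by positivity), mul_one_div_cancel hε1.ne', Real.rpow_one,
      Real.mul_rpow (by positivity) (by positivity), Real.mul_rpow (by positivity) (by positivity),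
      ← Real.rpow_mul (by linarith)] at h3
    have hinv : 1 / (1 - ε) ≤ 4 / 3 := by
      rw [div_le_div_iff₀ hε1 (by norm_num)]
      linarith
    have h4 : (1 / c) ^ (1 / (1 - ε)) ≤ (1 / c) ^ (4 / 3 : ℝ) :=
      Real.rpow_le_rpow_of_exponent_le (by rw [le_div_iff₀ hc0]; linarith) hinv
    have h5 : ((M.divisors.card : ℝ) ^ 2) ^ (1 / (1 - ε)) ≤ (M.divisors.card : ℝ) ^ 3 := by
      calc ((M.divisors.card : ℝ) ^ 2) ^ (1 / (1 - ε)) ≤ ((M.divisors.card : ℝ) ^ 2) ^ (4 / 3 : ℝ) :=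
            Real.rpow_le_rpow_of_exponent_le (one_le_pow₀ hτ1) hinv
        _ = (M.divisors.card : ℝ) ^ (8 / 3 : ℝ) := by
            rw [← Real.rpow_natCast, ← Real.rpow_mul (by linarith)]
            norm_num
        _ ≤ (M.divisors.card : ℝ) ^ (3 : ℝ) :=
            Real.rpow_le_rpow_of_exponent_le hτ1 (by norm_num)
        _ = (M.divisors.card : ℝ) ^ 3 := by
            rw [← Real.rpow_natCast]; norm_num
    have h6 : (A.card : ℝ) ^ ((2 - η) * (1 / (1 - ε))) ≤ (A.card : ℝ) ^ (1 - η / 2) * A.card := by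
      calc (A.card : ℝ) ^ ((2 - η) * (1 / (1 - ε))) ≤ (A.card : ℝ) ^ (1 - η / 2 + 1) := by
            refine Real.rpow_le_rpow_of_exponent_le hA1 ?_
            rw [mul_one_div, div_le_iff₀ hε1, hε]
            nlinarith
        _ = (A.card : ℝ) ^ (1 - η / 2) * A.card := by
            rw [Real.rpow_add (by linarith), Real.rpow_one]
    have h7 : (X.card : ℝ) * A.card ≤
        ((1 / c) ^ (4 / 3 : ℝ) * (M.divisors.card : ℝ) ^ 3 * (A.card : ℝ) ^ (1 - η / 2)) *
          A.card := by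
      refine h3.trans ?_
      calc (1 / c) ^ (1 / (1 - ε)) * ((M.divisors.card : ℝ) ^ 2) ^ (1 / (1 - ε)) *
            (A.card : ℝ) ^ ((2 - η) * (1 / (1 - ε)))
          ≤ (1 / c) ^ (4 / 3 : ℝ) * (M.divisors.card : ℝ) ^ 3 *
            ((A.card : ℝ) ^ (1 - η / 2) * A.card) := by
            refine mul_le_mul (mul_le_mul h4 h5 (by positivity) (by positivity)) h6
              (by positivity) (by positivity)
        _ = _ := by ring
    exact le_of_mul_le_mul_right h7 (by linarith)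
  · -- all elements of `A` are zero
    push Not at hA0
    have hXle : X.card ≤ 1 := by
      rw [card_le_one]
      intro x hx y hy
      have h1 := hA0 _ (hX x hx t0 ht0)
      have h2 := hA0 _ (hX y hy t0 ht0)
      linarith
    have h1 : (X.card : ℝ) ≤ 1 := by exact_mod_cast hXle
    have h2 : (1 : ℝ) ≤ (A.card : ℝ) ^ (1 - η / 2) := Real.one_le_rpow hA1 (by linarith)
    have h3 : (1 : ℝ) ≤ (M.divisors.card : ℝ) ^ 3 := one_le_pow₀ hτ1
    calc (X.card : ℝ) ≤ 1 := h1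
      _ ≤ (1 / c) ^ (4 / 3 : ℝ) * (M.divisors.card : ℝ) ^ 3 :=
          one_le_mul_of_one_le_of_one_le hC1 h3
      _ ≤ _ := le_mul_of_one_le_right (by positivity) h2

end Pool.Agent.Helper96.Shf
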